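import Pool.Agent.W870.PD.Stmts

/-!
PD-ISO2 (helper74): isoperimetric inequality by canonical paths.
-/

set_option autoImplicit false

open Pool.Agent.W804.HP Pool.Agent.W870.PD

namespace Pool.Agent.W74.PD

lemma nat_chain {Q : ℕ → Prop} {n : ℕ} (h0 : Q 0) (hn : ¬ Q n) : ∃ k < n, Q k ∧ ¬ Q (k + 1) := by
  induction n with
  | zero => exact absurd h0 hn
  | succ n ih =>
    by_cases h : Q n
    · exact ⟨n, Nat.lt_succ_self n, h, hn⟩
    · obtain ⟨k, hk, h1, h2⟩ := ih h
      exact ⟨k, hk.trans (Nat.lt_succ_self n), h1, h2⟩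

lemma int_chain {P : ℤ → Prop} {a b : ℤ} (hab : a ≤ b) (ha : P a) (hb : ¬ P b) :
    ∃ s, a ≤ s ∧ s + 1 ≤ b ∧ P s ∧ ¬ P (s + 1) := by
  obtain ⟨k, hk, h1, h2⟩ := nat_chain (Q := fun k => P (a + k)) (n := (b - a).toNat)
    (by simpa using ha) (by
      have : a + ((b - a).toNat : ℤ) = b := by omega
      rw [this]
      exact hb)
  refine ⟨a + k, by omega, by omega, h1, ?_⟩
  have : a + (k : ℤ) + 1 = a + ((k + 1 : ℕ) : ℤ) := by push_cast; ring
  rw [this]
  exact h2

lemma int_chain' {P : ℤ → Prop} {a b : ℤ} (ha : P a) (hb : ¬ P b) :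
    ∃ s, min a b ≤ s ∧ s + 1 ≤ max a b ∧ ((P s ∧ ¬ P (s + 1)) ∨ (¬ P s ∧ P (s + 1))) := by
  rcases le_total a b with h | h
  · obtain ⟨s, h1, h2, h3, h4⟩ := int_chain h ha hb
    exact ⟨s, (min_le_left _ _).trans h1, h2.trans (le_max_right _ _), Or.inl ⟨h3, h4⟩⟩
  · obtain ⟨s, h1, h2, h3, h4⟩ := int_chain (P := fun s => ¬ P s) h hb (not_not.2 ha)
    exact ⟨s, (min_le_right _ _).trans h1, h2.trans (le_max_left _ _),
      Or.inr ⟨h3, not_not.1 h4⟩⟩

/-- the edge of the canonical path -/
lemma exists_edge {d : ℕ} {w : Fin d → ℤ} {t : ℕ} {A : Finset (Fin d → ℤ)} {x y : Fin d → ℤ}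
    (hx : x ∈ bx w t) (hy : y ∈ bx w t) (hxA : x ∈ A) (hyA : y ∉ A) :
    ∃ e ∈ bdy w t A, (∀ m, m < e.2 → e.1 m = y m) ∧ ∀ m, e.2 < m → e.1 m = x m := by
  rw [mem_bx] at hx hy
  obtain ⟨k, hk, h1, h2⟩ := nat_chain
    (Q := fun k => (fun m : Fin d => if m.val < k then y m else x m) ∈ A) (n := d)
    (by simpa using hxA) (by
      have : (fun m : Fin d => if m.val < d then y m else x m) = y := by
        funext m
        rw [if_pos m.2]
      rw [this]
      exact hyA)
  obtain ⟨v, hv⟩ : ∃ v : Fin d → ℤ, v = fun m : Fin d => if m.val < k then y m else x m := ⟨_, rfl⟩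
  obtain ⟨j, hj⟩ : ∃ j : Fin d, j = ⟨k, hk⟩ := ⟨_, rfl⟩
  have hvj : v j = x j := by
    rw [hv, hj]
    simp
  have hup1 : Function.update v j (x j) = v := by
    rw [← hvj, Function.update_eq_self]
  have hup2 : Function.update v j (y j) = fun m : Fin d => if m.val < k + 1 then y m else x m := by
    funext m
    by_cases hm : m = j
    · subst hm
      rw [Function.update_self, hj]
      simp
    · rw [Function.update_of_ne hm, hv]
      have : m.val ≠ k := by
        intro e
        apply hm
        rw [hj]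
        exact Fin.ext e
      by_cases h3 : m.val < k
      · simp only [if_pos h3, if_pos (show m.val < k + 1 by omega)]
      · simp only [if_neg h3, if_neg (show ¬ m.val < k + 1 by omega)]
  obtain ⟨s, hs1, hs2, hs3⟩ := int_chain' (P := fun s => Function.update v j s ∈ A)
    (a := x j) (b := y j) (by rw [hup1, hv]; exact h1) (by rw [hup2]; exact h2)
  have hadd : Function.update v j s + ev j = Function.update v j (s + 1) := by
    funext m
    by_cases hm : m = j
    · subst hm
      simp [ev_self]
    · simp [hm, ev_ne hm]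
  have hbox : ∀ r, min (x j) (y j) ≤ r → r ≤ max (x j) (y j) → Function.update v j r ∈ bx w t := by
    intro r hr1 hr2
    rw [mem_bx]
    intro m
    by_cases hm : m = j
    · subst hm
      rw [Function.update_self]
      have h4 := abs_le.1 (hx m)
      have h5 := abs_le.1 (hy m)
      rw [abs_le]
      rcases le_total (x m) (y m) with h6 | h6
      · rw [min_eq_left h6] at hr1
        rw [max_eq_right h6] at hr2
        constructor <;> linarith [h4.1, h5.2]
      · rw [min_eq_right h6] at hr1
        rw [max_eq_left h6] at hr2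
        constructor <;> linarith [h4.2, h5.1]
    · rw [Function.update_of_ne hm, hv]
      by_cases h3 : m.val < k
      · simp only [if_pos h3]; exact hy m
      · simp only [if_neg h3]; exact hx m
  refine ⟨(Function.update v j s, j), ?_, ?_, ?_⟩
  · unfold bdy
    rw [Finset.mem_filter, Finset.mem_product]
    refine ⟨⟨hbox s hs1 (by linarith), Finset.mem_univ _⟩, ?_, ?_⟩
    · simp only
      rw [hadd]
      exact hbox (s + 1) (by linarith) hs2
    · simp only
      rw [hadd]
      exact hs3
  · intro m hm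
    simp only at hm ⊢
    rw [Function.update_of_ne hm.ne, hv]
    have : m.val < k := by
      have h3 : m.val < j.val := hm
      rw [hj] at h3
      exact h3
    simp only [if_pos this]
  · intro m hm
    simp only at hm ⊢
    rw [Function.update_of_ne hm.ne', hv]
    have : ¬ m.val < k := by
      have h3 : j.val < m.val := hm
      rw [hj] at h3
      simp only at h3
      omega
    simp only [if_neg this]

theorem iso2 : S_iso2 := by
  intro d w t A hA
  classical
  have hcard : (bx w t \ A).card = (2 * t + 1) ^ d - A.card := by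
    rw [Finset.card_sdiff_of_subset hA, card_bx]
  rw [← hcard, ← Finset.card_product]
  rcases (A ×ˢ (bx w t \ A)).eq_empty_or_nonempty with h | ⟨⟨x0, y0⟩, h0⟩
  · rw [h]
    simp
  have hex : ∀ x y, x ∈ A → y ∈ bx w t \ A →
      ∃ e ∈ bdy w t A, (∀ m, m < e.2 → e.1 m = y m) ∧ ∀ m, e.2 < m → e.1 m = x m := by
    intro x y hx hy
    rw [Finset.mem_sdiff] at hy
    exact exists_edge (hA hx) hy.1 hx hy.2
  rw [Finset.mem_product] at h0
  obtain ⟨e0, he0, _⟩ := hex x0 y0 h0.1 h0.2
  have : Inhabited ((Fin d → ℤ) × Fin d) := ⟨e0⟩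
  choose! e he1 he2 he3 using hex
  have htarget : (bdy w t A).card * (2 * t + 1) ^ (d + 1) =
      (bdy w t A ×ˢ (bx w t ×ˢ Finset.range (2 * t + 1))).card := by
    rw [Finset.card_product, Finset.card_product, card_bx, Finset.card_range, pow_succ]
  rw [htarget]
  refine Finset.card_le_card_of_injOn (fun p => (e p.1 p.2,
    ((fun m => if m ≤ (e p.1 p.2).2 then p.1 m else p.2 m),
      (p.2 (e p.1 p.2).2 - w (e p.1 p.2).2 + t).toNat))) ?_ ?_
  · rintro ⟨x, y⟩ hp
    rw [Finset.mem_coe, Finset.mem_product] at hp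
    obtain ⟨hx, hy⟩ := hp
    simp only at hx hy
    have hx' := mem_bx.1 (hA hx)
    have hy' := mem_bx.1 (Finset.mem_sdiff.1 hy).1
    rw [Finset.mem_coe, Finset.mem_product, Finset.mem_product]
    refine ⟨he1 x y hx hy, ?_, ?_⟩
    · simp only
      rw [mem_bx]
      intro m
      split_ifs
      · exact hx' m
      · exact hy' m
    · simp only
      rw [Finset.mem_range]
      have := abs_le.1 (hy' (e x y).2)
      omega
  · rintro ⟨x, y⟩ hp ⟨x', y'⟩ hp' heq
    rw [Finset.mem_coe, Finset.mem_product] at hp hp'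
    obtain ⟨hx, hy⟩ := hp
    obtain ⟨hx', hy'⟩ := hp'
    simp only at hx hy hx' hy'
    simp only [Prod.mk.injEq] at heq
    obtain ⟨g1, g2, g3⟩ := heq
    have k2 := he2 x y hx hy
    have k3 := he3 x y hx hy
    have k2' := he2 x' y' hx' hy'
    have k3' := he3 x' y' hx' hy'
    rw [← g1] at k2' k3' g2 g3
    have hyb := mem_bx.1 (Finset.mem_sdiff.1 hy).1
    have hyb' := mem_bx.1 (Finset.mem_sdiff.1 hy').1
    have e1 : x = x' := by
      funext m
      by_cases hm : m ≤ (e x y).2
      · have := congrFun g2 m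
        simp only [if_pos hm] at this
        exact this
      · push Not at hm
        rw [← k3 m hm, ← k3' m hm]
    have e2 : y = y' := by
      funext m
      rcases lt_trichotomy m (e x y).2 with hm | hm | hm
      · rw [← k2 m hm, ← k2' m hm]
      · have h1 := abs_le.1 (hyb (e x y).2)
        have h2 := abs_le.1 (hyb' (e x y).2)
        rw [hm]
        omega
      · have := congrFun g2 m
        simp only [if_neg (not_le.2 hm)] at this
        exact this
    rw [e1, e2]

end Pool.Agent.W74.PD
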